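import Mathlib
import Pool.Agent.H638.LP.Tight

/-!
# Regular Lindelöf P-spaces of tightness at most `ℵ₁` are discretely generated

Let `X` be a regular Lindelöf P-space. For every `A ⊆ X`, every `x ∈ cl A` and every family `H` of
at most `ℵ₁` open sets containing `x` there is a discrete `D ⊆ A` of size at most `ℵ₁` whose closure
meets `⋂ H`. Hence `x ∈ cl D` if `x` has pseudocharacter at most `ℵ₁`. If the tightness of `X` is
at most `ℵ₁`, then `X` is discretely generated.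
-/

set_option autoImplicit false

universe u

namespace Pool.Agent.Results.MP_85dce0_gt.TightnessAlephOne

open Cardinal

theorem result (X : Type u) [TopologicalSpace X] [T3Space X] [LindelofSpace X]
    (hP : ∀ S : Set (Set X), S.Countable → (∀ s ∈ S, IsOpen s) → IsOpen (⋂₀ S)) :
    -- the closures of the discrete subsets of `A` meet all sets of type `G_{ℵ₁}` meeting `cl A`
    (∀ A : Set X, ∀ x ∈ closure A, ∀ H : Set (Set X), #H ≤ aleph 1 →
      (∀ U ∈ H, IsOpen U ∧ x ∈ U) →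
      ∃ D : Set X, D ⊆ A ∧ DiscreteTopology D ∧ #D ≤ aleph 1 ∧ (closure D ∩ ⋂₀ H).Nonempty) ∧
    -- points of pseudocharacter at most `ℵ₁`
    (∀ x : X, (∃ H : Set (Set X), #H ≤ aleph 1 ∧ (∀ U ∈ H, IsOpen U) ∧ ⋂₀ H = {x}) →
      ∀ A : Set X, x ∈ closure A →
      ∃ D : Set X, D ⊆ A ∧ DiscreteTopology D ∧ #D ≤ aleph 1 ∧ x ∈ closure D) ∧
    -- spaces of tightness at most `ℵ₁`
    ((∀ A : Set X, ∀ x ∈ closure A, ∃ B : Set X, B ⊆ A ∧ #B ≤ aleph 1 ∧ x ∈ closure B) →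
      ∀ A : Set X, ∀ x ∈ closure A,
      ∃ D : Set X, D ⊆ A ∧ DiscreteTopology D ∧ #D ≤ aleph 1 ∧ x ∈ closure D) := by
  have h1 : ∀ A : Set X, ∀ x ∈ closure A, ∀ H : Set (Set X), #H ≤ aleph 1 →
      (∀ U ∈ H, IsOpen U ∧ x ∈ U) →
      ∃ D : Set X, D ⊆ A ∧ DiscreteTopology D ∧ #D ≤ aleph 1 ∧ (closure D ∩ ⋂₀ H).Nonempty :=
    fun A x hx H hH hHo => Pool.Agent.H638.LP.dense' hP hx H hH hHo
  refine ⟨h1, ?_, ?_⟩
  · rintro x ⟨H, hH, hHo, hHx⟩ A hx
    obtain ⟨D, hD1, hD2, hD3, z, hz1, hz2⟩ := h1 A x hx H hH (fun U hU => ⟨hHo U hU, by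
      have h2 : x ∈ ⋂₀ H := by rw [hHx]; rfl
      exact h2 U hU⟩)
    rw [hHx] at hz2
    rw [Set.mem_singleton_iff.1 hz2] at hz1
    exact ⟨D, hD1, hD2, hD3, hz1⟩
  · intro ht A x hx
    exact Pool.Agent.H638.LP.main hP ht hx

end Pool.Agent.Results.MP_85dce0_gt.TightnessAlephOne
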